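import Pool.Agent.Lib.MP_783262_lc.Minimal

/-!
Minimal trees which are not unit disk graphs: for every `N` there is one of maximum degree at most
three with more than `N` and at most `C N^2` vertices.

The definition `IsUnitDisk` is in `Pool.Agent.Lib.MP_783262_lc.Defs`.
-/

set_option autoImplicit false

namespace Pool.Agent.Results.MP_783262_lc.MinimalTrees

open Pool.Agent.Lib.MP783262

/-- There is `C` such that for every `N ≥ 1` there is a finite tree `G` of maximum degree at most
three with more than `N` and at most `C N^2` vertices which is not a unit disk graph, although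
every proper induced subgraph of `G` is a unit disk graph. -/
theorem result : ∃ C : ℕ, ∀ N : ℕ, 1 ≤ N →
    ∃ (V : Type) (_ : Fintype V) (G : SimpleGraph V), G.IsTree ∧
      (∀ v, (G.neighborSet v).ncard ≤ 3) ∧ N < Fintype.card V ∧ Fintype.card V ≤ C * N ^ 2 ∧
      ¬ IsUnitDisk G ∧ ∀ S : Set V, S ≠ Set.univ → IsUnitDisk (G.induce S) :=
  minimal_trees

end Pool.Agent.Results.MP_783262_lc.MinimalTrees
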