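import Pool.Agent.Lib.MP_783262_lc.Proof

/-!
Recognising unit disk trees by bottom-up evaluation (dynamic programming over subtrees, tree
automata): a procedure which computes a state for every rooted tree from the states of the subtrees
at the children of the root, and which is right about all trees with at most `n` vertices and at
most two children per vertex, takes at least `c √n` different states on these trees.

The definitions `RTree`, `verts`, `graph`, `eval`, `IsUnitDisk` are in
`Pool.Agent.Lib.MP_783262_lc.Defs`.
-/

set_option autoImplicit false

namespace Pool.Agent.Results.MP_783262_lc.StateLowerBound

open Pool.Agent.Lib.MP783262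

/-- There is `C` such that if a bottom-up evaluation with acceptance set `F` is right about all
trees with at most `n` vertices and takes at most `r` states on them, then `n ≤ C r^2`. -/
theorem result : ∃ C : ℕ, ∀ (S : Type) (a : S) (f : S → S) (g : S → S → S) (F : Set S) (n : ℕ)
    (R : Finset S), (∀ t : RTree, Nat.card t.verts ≤ n →
      (t.eval a f g ∈ R ∧ (t.eval a f g ∈ F ↔ IsUnitDisk t.graph))) → n ≤ C * R.card ^ 2 :=
  main

end Pool.Agent.Results.MP_783262_lc.StateLowerBound
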